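import Pool.Graph.R_pool_sql_team_seeded_3997aac3.Q20.EX.All
import Pool.Graph.R_pool_sql_team_seeded_3997aac3.Q111.EX.Fin
import Pool.Graph.R_pool_sql_team_seeded_3dad9d7b.NH7.BK.All

/-!
# Homomorphisms of the absolute Galois group to `ℤ/p`, and the reciprocity law
-/

set_option autoImplicit false
set_option linter.unusedSectionVars false

namespace Pool.Agent.H517.B

open NumberField IsDedekindDomain Pool.Agent.W401.Cheb Pool.Agent.NH7.Sch
open Pool.Agent.Q92.AR (Dv prin art Ray Pr Pos Cong Unramified nmD nu frob frob_spec art_single)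
open Pool.Agent.Q20.EX (CongAt Un TrivAt Split S_NRM)

section recip

variable {K M : Type} [Field K] [NumberField K] [Field M] [NumberField M] [Algebra K M]
  [IsGalois K M]

/-- the Frobenius elements at split primes are trivial -/
theorem frob_split {w : HeightOneSpectrum (𝓞 K)} (hw : Split M w) : frob M w = 1 := by
  obtain ⟨W, hWm, hWv, hW⟩ := frob_spec (M := M) w
  have hW0 : W ≠ ⊥ := by
    rintro rfl
    apply w.ne_bot
    rw [← hWv, ← RingHom.ker_eq_comap_bot]
    exact (RingHom.injective_iff_ker_eq_bot _).1 (FaithfulSMul.algebraMap_injective (𝓞 K) (𝓞 M))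
  set V : HeightOneSpectrum (𝓞 M) := ⟨W, hWm.isPrime, hW0⟩ with hV
  refine hw V (HeightOneSpectrum.ext hWv) _ ?_
  apply HeightOneSpectrum.ext
  have hle : (Pool.Agent.TeamU.act (frob M w) V).asIdeal ≤ W := by
    intro x hx
    rw [Pool.Agent.TeamU.mem_act] at hx
    set y := (RingOfIntegers.mapRingEquiv (frob M w).toRingEquiv).symm x with hy
    have hy' : (x : M) = frob M w (y : M) := by
      have h1 : x = RingOfIntegers.mapRingEquiv (frob M w).toRingEquiv y := by
        rw [hy, RingEquiv.apply_symm_apply]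
      rw [h1]
      rfl
    obtain ⟨z, hz, hz'⟩ := hW y
    have h2 : x = z + y ^ Ideal.absNorm w.asIdeal := by
      apply RingOfIntegers.ext
      change (x : M) = (z : M) + (y : M) ^ Ideal.absNorm w.asIdeal
      rw [hz', ← hy']
      ring
    rw [h2]
    refine W.add_mem hz (W.pow_mem_of_mem hx _ ?_)
    rw [Nat.pos_iff_ne_zero, Ne, Ideal.absNorm_eq_zero_iff]
    exact w.ne_bot
  exact (Pool.Agent.TeamU.act (frob M w) V).isMaximal.eq_of_le hWm.ne_top hle

/-- **Reciprocity**, with a prime that splits. -/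
theorem recip_split (ψ : (M ≃ₐ[K] M) →* ℂˣ) {w : HeightOneSpectrum (𝓞 K)} (hwu : Unramified M w)
    (N₁ : ℕ) (hN₁ : N₁ ≠ 0) :
    ∃ N : ℕ, N ≠ 0 ∧ N₁ ∣ N ∧ Pool.Agent.Q92.AR.Ram K M N ∧ ∀ x : Kˣ, Pos (x : K) →
      (∀ v : HeightOneSpectrum (𝓞 K), (N : 𝓞 K) ∈ v.asIdeal → v ≠ w → v.valuation K (x : K) = 1) →
      (∀ v : HeightOneSpectrum (𝓞 K), (N : 𝓞 K) ∈ v.asIdeal → ¬ Unramified M v →
        v.valuation K ((x : K) - 1) ≤ v.valuation K (N : K)) → art ψ (prin x) = 0 := by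
  obtain ⟨N2, hN2, hR2, hray⟩ := Pool.Agent.Q92.AR.recip K M ψ
  obtain ⟨N3, hN3, hR3, hgood⟩ := Pool.Agent.Q111.EX.good Pool.Agent.Q38.EX.nrm K M ψ w hwu
  set N : ℕ := N₁ * (N2 * N3) with hN
  have hN0 : N ≠ 0 := mul_ne_zero hN₁ (mul_ne_zero hN2 hN3)
  have d2 : N2 ∣ N := ⟨N₁ * N3, by rw [hN]; ring⟩
  have d3 : N3 ∣ N := ⟨N₁ * N2, by rw [hN]; ring⟩
  have hR : Pool.Agent.Q92.AR.Ram K M N := fun v hv =>
    Pool.Agent.Q20.EX.nat_mem d2 (hR2 v hv)
  have htriv := Pool.Agent.Q285.EX.triv Pool.Agent.Q38.EX.nrm K M ψ N hN0 hR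
    (fun x hx => hray x ⟨fun v hv =>
      (hx.1 v (Pool.Agent.Q20.EX.nat_mem d2 hv)).trans (Pool.Agent.Q20.EX.nat_val_le d2 v), hx.2⟩)
  refine ⟨N, hN0, dvd_mul_right _ _, hR, fun x hxP hxU hxC => ?_⟩
  obtain ⟨z, hzP, hz1, hz2⟩ := Pool.Agent.Q285.EX.approx_split hN0
    {v : HeightOneSpectrum (𝓞 K) | v ≠ w ∧ Unramified M v} x (fun v hv hNv => hxU v hNv hv.1)
  have hone : ∀ v : HeightOneSpectrum (𝓞 K), (N : 𝓞 K) ∈ v.asIdeal → ∀ a : K,
      v.valuation K (a - 1) ≤ v.valuation K (N : K) → v.valuation K a = 1 :=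
    fun v hv a ha => Pool.Agent.Q92.AR.val_eq_one hv ha
  -- `z` is a unit at `N`
  have hzU : Un N z := by
    intro v hv
    by_cases h : v ≠ w ∧ Unramified M v
    · have h1 := hone v hv _ (hz1 v h hv)
      rw [Units.val_div_eq_div_val, map_div₀, hxU v hv h.1] at h1
      have h0 : v.valuation K (z : K) ≠ 0 := by
        rw [Valuation.ne_zero_iff]
        exact z.ne_zero
      field_simp at h1
      exact h1.symm
    · exact hone v hv _ (hz2 v h hv)
  have h1 : art ψ (prin z) = 0 := by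
    refine htriv z hzU hzP fun v hv hNv => hz2 v (fun h => hv h.2) hNv
  have h2 : art ψ (prin (x / z)) = 0 := by
    refine hgood _ (Pool.Agent.Q285.EX.pos_div hxP hzP) ?_
    intro v hv hNv
    have hNv' : (N : 𝓞 K) ∈ v.asIdeal := Pool.Agent.Q20.EX.nat_mem d3 hNv
    refine le_trans ?_ (Pool.Agent.Q20.EX.nat_val_le d3 v)
    by_cases h : Unramified M v
    · exact hz1 v ⟨hv, h⟩ hNv'
    · have hx1 := hxC v hNv' h
      have hz3 := hz2 v (fun h' => h h'.2) hNv'
      have hzv := hone v hNv' _ hz3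
      have e : ((x / z : Kˣ) : K) - 1 = ((x : K) - 1 - ((z : K) - 1)) / z := by
        rw [Units.val_div_eq_div_val]
        field_simp
        ring
      rw [e, map_div₀, hzv, div_one]
      exact (Valuation.map_sub _ _ _).trans (max_le hx1 hz3)
  have e : x = (x / z) * z := (div_mul_cancel x z).symm
  rw [e, Pool.Agent.Q92.AR.prin_mul, map_add, h1, h2, add_zero]

end recip

section brd

variable {K : Type} [Field K] [NumberField K]

/-- a maximal ideal of the ring of all algebraic integers above a prime of `M` -/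
theorem exists_QM (M : IntermediateField K (AlgebraicClosure K)) [NumberField M]
    (W : HeightOneSpectrum (𝓞 M)) : ∃ Q : Ideal (OO K), Q.IsMaximal ∧
    Q.comap (algebraMap (𝓞 M) (OO K)) = W.asIdeal := by
  have hvm : W.asIdeal.IsMaximal := W.isMaximal
  obtain ⟨Q, hQm, hQv⟩ := Ideal.exists_ideal_over_maximal_of_isIntegral (S := (OO K)) W.asIdeal (by
    rw [(RingHom.injective_iff_ker_eq_bot _).1 (FaithfulSMul.algebraMap_injective (𝓞 M) (OO K))]
    exact bot_le)
  exact ⟨Q, hQm, hQv⟩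

theorem comap_comap' (M : IntermediateField K (AlgebraicClosure K)) [NumberField M]
    {W : HeightOneSpectrum (𝓞 M)} {Q : Ideal (OO K)}
    (hQ : Q.comap (algebraMap (𝓞 M) (OO K)) = W.asIdeal) :
    Q.comap (algebraMap (𝓞 K) (OO K)) = (W.under (𝓞 K)).asIdeal := by
  change _ = W.asIdeal.comap (algebraMap (𝓞 K) (𝓞 M))
  rw [← hQ, Ideal.comap_comap]
  rfl

/-- unramified primes -/
theorem unr_of (M : IntermediateField K (AlgebraicClosure K)) [IsGalois K M] [NumberField M]
    {v : HeightOneSpectrum (𝓞 K)}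
    (h : ∀ Q : Ideal (OO K), Q.IsMaximal → Q.comap (algebraMap (𝓞 K) (OO K)) = v.asIdeal →
      ∀ σ ∈ Inr Q, ∀ x : M, σ (x : AlgebraicClosure K) = x) : Unramified M v := by
  intro W hW hle
  obtain ⟨Q, hQ, hQW⟩ := exists_QM M W
  have hQv : Q.comap (algebraMap (𝓞 K) (OO K)) = v.asIdeal := by rw [comap_comap' M hQW, hW]
  obtain ⟨w, hw, hval⟩ := exists_place M hQ hQv (h Q hQ hQv)
  have hwW : w = W := HeightOneSpectrum.ext (hw.trans hQW)
  subst hwW
  obtain ⟨π, hπ⟩ := v.intValuation_exists_uniformizer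
  have hπv : π ∈ v.asIdeal := by
    rw [← v.intValuation_lt_one_iff_mem, hπ, ← WithZero.exp_zero, WithZero.exp_lt_exp]
    norm_num
  have h2 := hle (Ideal.mem_map_of_mem _ hπv)
  rw [← w.intValuation_le_pow_iff_mem, ← w.valuation_of_algebraMap (K := M)] at h2
  change w.valuation M (algebraMap K M (algebraMap (𝓞 K) K π)) ≤ _ at h2
  rw [hval, v.valuation_of_algebraMap, hπ] at h2
  rw [WithZero.exp_le_exp] at h2
  norm_num at h2

/-- primes that split completely -/
theorem split_of (M : IntermediateField K (AlgebraicClosure K)) [IsGalois K M] [NumberField M]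
    {v : HeightOneSpectrum (𝓞 K)}
    (h : ∀ Q : Ideal (OO K), Q.IsMaximal → Q.comap (algebraMap (𝓞 K) (OO K)) = v.asIdeal →
      ∀ σ ∈ Dec Q, ∀ x : M, σ (x : AlgebraicClosure K) = x) : Split M v := by
  intro W hW g hg
  obtain ⟨Q, hQ, hQW⟩ := exists_QM M W
  have hQv : Q.comap (algebraMap (𝓞 K) (OO K)) = v.asIdeal := by rw [comap_comap' M hQW, hW]
  obtain ⟨τ, hτ, hτg⟩ := dec_lift M hQ g (fun a => by
    have h1 : ∀ b : 𝓞 M, algebraMap (𝓞 M) (OO K) b ∈ Q ↔ b ∈ W.asIdeal := by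
      intro b
      rw [← hQW]
      rfl
    rw [h1, h1]
    have h2 : g • a ∈ (Pool.Agent.TeamU.act g W).asIdeal ↔ a ∈ W.asIdeal := by
      rw [Pool.Agent.TeamU.mem_act]
      have h3 : (RingOfIntegers.mapRingEquiv g.toRingEquiv).symm (g • a) = a := by
        rw [RingEquiv.symm_apply_eq]
        rfl
      rw [h3]
    rw [hg] at h2
    exact h2.symm)
  ext x
  rw [← hτg, h Q hQ hQv τ hτ]
  rfl

end brd

end Pool.Agent.H517.B
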