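import Pool.Agent.H517.B.RC

/-!
# Class groups and divisors
-/

set_option autoImplicit false
set_option linter.unusedSectionVars false

namespace Pool.Agent.H517.B

open NumberField IsDedekindDomain
open Pool.Agent.Q92.AR (Dv prin Pr Pos prin_mul prin_inv prin_one prinHom)

variable {K : Type} [Field K] [NumberField K] {p : ℕ} [hp : Fact p.Prime]

/-- the class of a prime -/
noncomputable def cl (w : HeightOneSpectrum (𝓞 K)) : ClassGroup (𝓞 K) :=
  ClassGroup.mk0 ⟨w.asIdeal, mem_nonZeroDivisors_iff_ne_zero.2 w.ne_bot⟩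

theorem cls_divisor {w : HeightOneSpectrum (𝓞 K)}
    (h : ∀ C : ClassGroup (𝓞 K), ∃ m k : ℕ, ¬ p ∣ m ∧ C ^ m = cl w ^ k) (D : Dv K) :
    ∃ (m : ℕ) (x : Kˣ) (k : ℤ), ¬ p ∣ m ∧ m • D = prin x + k • Finsupp.single w 1 := by
  classical
  obtain ⟨I, hI⟩ := Pool.Agent.Q225.AR.exists_ideal D
  obtain ⟨m, k, hm, hmk⟩ := h (ClassGroup.mk (K := K) I)
  set J : (FractionalIdeal (nonZeroDivisors (𝓞 K)) K)ˣ :=
    FractionalIdeal.mk0 K ⟨w.asIdeal, mem_nonZeroDivisors_iff_ne_zero.2 w.ne_bot⟩ with hJ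
  have hJw : (J : FractionalIdeal (nonZeroDivisors (𝓞 K)) K) = w.asIdeal := rfl
  have h1 : ClassGroup.mk (K := K) (I ^ m * (J ^ k)⁻¹) = 1 := by
    rw [map_mul, map_inv, map_pow, map_pow, hmk, hJ, ClassGroup.mk_mk0, cl, mul_inv_cancel]
  obtain ⟨x, hx⟩ := (ClassGroup.mk_eq_one_iff.1 h1).principal
  have h2 : ((I ^ m * (J ^ k)⁻¹ : (FractionalIdeal (nonZeroDivisors (𝓞 K)) K)ˣ) :
      FractionalIdeal (nonZeroDivisors (𝓞 K)) K) = FractionalIdeal.spanSingleton _ x := by
    apply FractionalIdeal.coeToSubmodule_injective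
    beta_reduce
    rw [hx, FractionalIdeal.coe_spanSingleton]
  have hx0 : x ≠ 0 := by
    rintro rfl
    rw [FractionalIdeal.spanSingleton_zero] at h2
    exact (I ^ m * (J ^ k)⁻¹).ne_zero h2
  refine ⟨m, Units.mk0 x hx0, k, hm, ?_⟩
  ext v
  have h3 : (I : FractionalIdeal (nonZeroDivisors (𝓞 K)) K) ^ m =
      FractionalIdeal.spanSingleton (nonZeroDivisors (𝓞 K)) x *
        (w.asIdeal : FractionalIdeal (nonZeroDivisors (𝓞 K)) K) ^ k := by
    rw [← h2, ← hJw, ← Units.val_pow_eq_pow_val, ← Units.val_pow_eq_pow_val, ← Units.val_mul]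
    congr 1
    group
  have h4 := congrArg (FractionalIdeal.count K v) h3
  rw [FractionalIdeal.count_mul, FractionalIdeal.count_pow, FractionalIdeal.count_pow, hI v] at h4
  · rw [Finsupp.smul_apply, Finsupp.add_apply, Finsupp.smul_apply, Finsupp.single_apply,
      Pool.Agent.Q92.AR.prin_apply, Units.val_mk0, nsmul_eq_mul, h4]
    by_cases hv : w = v
    · subst hv
      rw [FractionalIdeal.count_self, if_pos rfl, smul_eq_mul]
    · rw [FractionalIdeal.count_maximal_coprime K v hv, if_neg hv, smul_zero, mul_zero]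
  · exact FractionalIdeal.spanSingleton_ne_zero_iff.2 hx0
  · exact pow_ne_zero _ (FractionalIdeal.coeIdeal_ne_zero.2 w.ne_bot)

end Pool.Agent.H517.B
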