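import Pool.Agent.H517.B.Van

/-!
# The condition on the units for a prime of degree one
-/

set_option autoImplicit false
set_option linter.unusedSectionVars false

namespace Pool.Agent.H517.B

open NumberField IsDedekindDomain

variable {K : Type} [Field K] [NumberField K] {p : ℕ} [hp : Fact p.Prime]

theorem exists_int {w' : HeightOneSpectrum (𝓞 K)} (h : Ideal.absNorm w'.asIdeal = p) (s : 𝓞 K) :
    ∃ n : ℤ, s - n ∈ w'.asIdeal := by
  have hc : Nat.card (𝓞 K ⧸ w'.asIdeal) = p := by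
    rw [← h, Ideal.absNorm_apply]
    rfl
  have h1 : (1 : 𝓞 K ⧸ w'.asIdeal) ≠ 0 := by
    have := Ideal.Quotient.nontrivial_iff.2 w'.isPrime.ne_top
    exact one_ne_zero
  obtain ⟨n, hn⟩ := AddSubgroup.mem_zmultiples_iff.1
    (mem_zmultiples_of_prime_card hc h1 (g' := Ideal.Quotient.mk w'.asIdeal s))
  refine ⟨n, ?_⟩
  rw [← Ideal.Quotient.eq, ← hn]
  simp

theorem one_add_pow_mod {R : Type} [CommRing R] {I : Ideal R} {a : R} (ha : a ∈ I) (j : ℕ) :
    (1 + a) ^ j - (1 + j * a) ∈ I ^ 2 := by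
  induction j with
  | zero => simp
  | succ j ih =>
    have h1 : (1 + a) ^ (j + 1) - (1 + ((j + 1 : ℕ) : R) * a) =
        ((1 + a) ^ j - (1 + j * a)) * (1 + a) + j * (a * a) := by
      push_cast
      ring
    rw [h1]
    refine Ideal.add_mem _ (Ideal.mul_mem_right _ _ ih) (Ideal.mul_mem_left _ _ ?_)
    rw [pow_two]
    exact Ideal.mul_mem_mul ha ha

/-- The condition on the units. -/
theorem units_of_deg (hp2 : p ≠ 2) {w w' : HeightOneSpectrum (𝓞 K)} {e : ℕ}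
    (hab : w.asIdeal ^ e * w'.asIdeal = Ideal.span {(p : 𝓞 K)}) (hcop : IsCoprime w.asIdeal w'.asIdeal)
    (hw' : Ideal.absNorm w'.asIdeal = p) {α : 𝓞 K} {k : ℕ} (hα : Ideal.span {α} = w.asIdeal ^ k)
    (hα2 : α ^ (p - 1) - 1 ∉ w'.asIdeal ^ 2) (x : 𝓞 K) (hx : IsCoprime (Ideal.span {x}) w'.asIdeal) :
    ∃ (α' y : 𝓞 K) (k : ℕ), Ideal.span {α'} = w.asIdeal ^ k ∧ x * α' - y ^ p ∈ w'.asIdeal ^ 3 := by
  have hpw : (p : 𝓞 K) ∈ w'.asIdeal := by
    have h2 : (p : 𝓞 K) ∈ w.asIdeal ^ e * w'.asIdeal := by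
      rw [hab]; exact Ideal.mem_span_singleton_self _
    exact Ideal.mul_le_right h2
  have hsq : ∀ a ∈ w'.asIdeal, ∀ b ∈ w'.asIdeal, a * b ∈ w'.asIdeal ^ 2 := by
    intro a ha b hb
    rw [pow_two]
    exact Ideal.mul_mem_mul ha hb
  -- Fermat
  have hfer : ∀ s : 𝓞 K, s ∉ w'.asIdeal → s ^ (p - 1) - 1 ∈ w'.asIdeal := by
    intro s hs
    obtain ⟨n, hn⟩ := exists_int hw' s
    have hpn : (n : ZMod p) ≠ 0 := by
      intro h0
      obtain ⟨m, hm⟩ := (ZMod.intCast_zmod_eq_zero_iff_dvd n p).1 h0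
      apply hs
      have h1 : s = (s - n) + p * m := by rw [hm]; push_cast; ring
      rw [h1]
      exact Ideal.add_mem _ hn (Ideal.mul_mem_right _ _ hpw)
    have h2 := ZMod.pow_card_sub_one_eq_one hpn
    have h3 : ((n ^ (p - 1) - 1 : ℤ) : ZMod p) = 0 := by
      push_cast
      rw [h2, sub_self]
    obtain ⟨m, hm⟩ := (ZMod.intCast_zmod_eq_zero_iff_dvd _ p).1 h3
    obtain ⟨z, hz⟩ := sub_dvd_pow_sub_pow s (n : 𝓞 K) (p - 1)
    have h4 : s ^ (p - 1) - 1 = (s - n) * z + p * m := by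
      have h5 : (n : 𝓞 K) ^ (p - 1) - 1 = p * m := by
        have := congrArg (Int.cast : ℤ → 𝓞 K) hm
        push_cast at this
        exact this
      rw [← hz, ← h5]
      ring
    rw [h4]
    exact Ideal.add_mem _ (Ideal.mul_mem_right _ _ hn) (Ideal.mul_mem_right _ _ hpw)
  -- the elements of `w'` are multiples of `p` modulo its square
  have hlin : ∀ s ∈ w'.asIdeal, ∃ n : ℤ, s - n * p ∈ w'.asIdeal ^ 2 := by
    intro s hs
    have h1 : w'.asIdeal ≤ Ideal.span {(p : 𝓞 K)} ⊔ w'.asIdeal ^ 2 := by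
      have h3 : w'.asIdeal = w'.asIdeal * (w.asIdeal ^ e ⊔ w'.asIdeal) := by
        rw [Ideal.isCoprime_iff_sup_eq.1 hcop.pow_left, Ideal.mul_top]
      conv_lhs => rw [h3]
      rw [Ideal.mul_sup, ← pow_two, mul_comm w'.asIdeal, hab]
    obtain ⟨a, ha, r, hr, har⟩ := Submodule.mem_sup.1 (h1 hs)
    obtain ⟨t, ht⟩ := Ideal.mem_span_singleton.1 ha
    obtain ⟨n, hn⟩ := exists_int hw' t
    refine ⟨n, ?_⟩
    have h4 : s - n * p = p * (t - n) + r := by rw [← har, ht]; ring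
    rw [h4]
    exact Ideal.add_mem _ (hsq _ hpw _ hn) hr
  have hαw : α ∉ w'.asIdeal := by
    intro h
    have h1 := Ideal.isCoprime_iff_sup_eq.1 (hcop.pow_left (m := k))
    rw [← hα, sup_eq_right.2 ((Ideal.span_singleton_le_iff_mem _).2 h)] at h1
    exact w'.isPrime.ne_top h1
  have hxw : x ∉ w'.asIdeal := by
    intro h
    have h1 := Ideal.isCoprime_iff_sup_eq.1 hx
    rw [sup_eq_right.2 ((Ideal.span_singleton_le_iff_mem _).2 h)] at h1
    exact w'.isPrime.ne_top h1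
  obtain ⟨n, hn⟩ := hlin _ (hfer x hxw)
  obtain ⟨m, hm⟩ := hlin _ (hfer α hαw)
  have hpm : (m : ZMod p) ≠ 0 := by
    intro h0
    obtain ⟨m', hm'⟩ := (ZMod.intCast_zmod_eq_zero_iff_dvd m p).1 h0
    apply hα2
    have h1 : α ^ (p - 1) - 1 = (α ^ (p - 1) - 1 - m * p) + m' * (p * p) := by
      rw [hm']; push_cast; ring
    rw [h1]
    exact Ideal.add_mem _ hm (Ideal.mul_mem_left _ _ (hsq _ hpw _ hpw))
  -- the exponent
  set j : ℕ := (-(n : ZMod p) * (m : ZMod p)⁻¹).val with hj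
  have hjm : ∃ q : ℤ, n + j * m = p * q := by
    apply (ZMod.intCast_zmod_eq_zero_iff_dvd _ p).1
    push_cast
    rw [hj, ZMod.natCast_zmod_val]
    field_simp
    ring
  obtain ⟨q, hq⟩ := hjm
  have hz : (x * α ^ j) ^ (p - 1) - 1 ∈ w'.asIdeal ^ 2 := by
    obtain ⟨A, hA⟩ : ∃ A, A = α ^ (p - 1) - 1 := ⟨_, rfl⟩
    obtain ⟨S, hS⟩ : ∃ S, S = x ^ (p - 1) - 1 := ⟨_, rfl⟩
    have hAw : A ∈ w'.asIdeal := hA ▸ hfer α hαw
    have hSw : S ∈ w'.asIdeal := hS ▸ hfer x hxw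
    rw [← hA] at hm
    rw [← hS] at hn
    have h1 : (x * α ^ j) ^ (p - 1) = (1 + S) * (1 + A) ^ j := by
      rw [mul_pow, ← pow_mul, mul_comm j, pow_mul, hA, hS]
      ring
    have h2 := one_add_pow_mod hAw j
    have h3 : (x * α ^ j) ^ (p - 1) - 1 = ((1 + A) ^ j - (1 + j * A)) * (1 + S) + S * A * j +
        (S - n * p) + (A - m * p) * j + (n + j * m : ℤ) * p := by
      rw [h1]
      push_cast
      ring
    rw [h3, hq]
    refine Ideal.add_mem _ (Ideal.add_mem _ (Ideal.add_mem _ (Ideal.add_mem _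
      (Ideal.mul_mem_right _ _ h2) (Ideal.mul_mem_right _ _ (hsq _ hSw _ hAw))) hn)
      (Ideal.mul_mem_right _ _ hm)) ?_
    have h4 : ((p * q : ℤ) : 𝓞 K) * p = (p * p) * q := by push_cast; ring
    rw [h4]
    exact Ideal.mul_mem_right _ _ (hsq _ hpw _ hpw)
  have hz2 : x * α ^ j - (x * α ^ j) ^ p ∈ w'.asIdeal ^ 2 := by
    obtain ⟨Z, hZ⟩ : ∃ Z, Z = x * α ^ j := ⟨_, rfl⟩
    rw [← hZ] at hz ⊢
    obtain ⟨r, hr⟩ : ∃ r, p = r + 1 := ⟨p - 1, by have := hp.out.pos; omega⟩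
    have h1 : Z - Z ^ p = (-Z) * (Z ^ (p - 1) - 1) := by
      rw [hr, Nat.add_sub_cancel, pow_succ]
      ring
    rw [h1]
    exact Ideal.mul_mem_left _ _ hz
  have hcopx : IsCoprime (Ideal.span {x * α ^ j}) w'.asIdeal := by
    rw [← Ideal.span_singleton_mul_span_singleton, ← Ideal.span_singleton_pow, hα]
    exact hx.mul_left hcop.pow_left.pow_left
  obtain ⟨y, hy⟩ := lift_pow hp2 hab hcop.pow_left hcopx hz2 1
  refine ⟨α ^ j, y, k * j, ?_, hy⟩
  rw [← Ideal.span_singleton_pow, hα, pow_mul]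

end Pool.Agent.H517.B
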