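import Mathlib

/-!
# The fields `ℚ(√(1 - 4p))`: norms, discriminants
-/

set_option autoImplicit false
set_option linter.unusedSectionVars false

namespace Pool.Agent.H517.B

open NumberField Module

section

variable {K : Type} [Field K] [NumberField K] {p : ℕ}

theorem not_rat (hp : 1 ≤ p) {α : K} (hα : α ^ 2 - α + p = 0) (q : ℚ) : algebraMap ℚ K q ≠ α := by
  intro h
  have h1 : algebraMap ℚ K (q ^ 2 - q + p) = 0 := by
    rw [map_add, map_sub, map_pow, h, map_natCast, hα]
  have h2 : q ^ 2 - q + p = 0 := (map_eq_zero _).1 h1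
  have h3 : (1 : ℚ) ≤ p := by exact_mod_cast hp
  nlinarith [sq_nonneg (2 * q - 1)]

theorem lin_ind (hp : 1 ≤ p) {α : K} (hα : α ^ 2 - α + p = 0) :
    LinearIndependent ℚ ![(1 : K), α] := by
  rw [LinearIndependent.pair_iff]
  intro s t hst
  have ht : t = 0 := by
    by_contra ht
    apply not_rat hp hα (-s / t)
    have h1 : algebraMap ℚ K t ≠ 0 := by rwa [Ne, map_eq_zero]
    rw [Algebra.smul_def, Algebra.smul_def, mul_one] at hst
    rw [map_div₀, map_neg, div_eq_iff h1]
    linear_combination -hst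
  subst ht
  rw [zero_smul, add_zero, Algebra.smul_def, mul_one, map_eq_zero] at hst
  exact ⟨hst, rfl⟩

variable (h2 : finrank ℚ K = 2)

include h2

/-- the basis `1, α` -/
noncomputable def bas (hp : 1 ≤ p) {α : K} (hα : α ^ 2 - α + p = 0) : Basis (Fin 2) ℚ K :=
  basisOfLinearIndependentOfCardEqFinrank (lin_ind hp hα) (by rw [h2, Fintype.card_fin])

theorem bas_apply (hp : 1 ≤ p) {α : K} (hα : α ^ 2 - α + p = 0) (i : Fin 2) :
    bas h2 hp hα i = ![(1 : K), α] i := by
  rw [bas, coe_basisOfLinearIndependentOfCardEqFinrank]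

theorem mat (hp : 1 ≤ p) {α : K} (hα : α ^ 2 - α + p = 0) :
    Algebra.leftMulMatrix (bas h2 hp hα) α = !![0, -(p : ℚ); 1, 1] := by
  set b := bas h2 hp hα with hb
  have e0 : b 0 = 1 := bas_apply h2 hp hα 0
  have e1 : b 1 = α := bas_apply h2 hp hα 1
  have m0 : α * b 0 = b 1 := by rw [e0, e1, mul_one]
  have m1 : α * b 1 = -(p : ℚ) • b 0 + b 1 := by
    rw [e0, e1, Algebra.smul_def, mul_one, map_neg, map_natCast]
    linear_combination hα
  have r0 : ∀ i, b.repr (b 0) i = if i = 0 then 1 else 0 := fun i => by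
    rw [Basis.repr_self, Finsupp.single_apply]; simp [eq_comm]
  have r1 : ∀ i, b.repr (b 1) i = if i = 1 then 1 else 0 := fun i => by
    rw [Basis.repr_self, Finsupp.single_apply]; simp [eq_comm]
  ext i j
  rw [Algebra.leftMulMatrix_eq_repr_mul]
  fin_cases j
  · rw [show (⟨0, by omega⟩ : Fin 2) = 0 from rfl] at *
    simp only [Fin.zero_eta, Fin.isValue]
    rw [m0, r1]
    fin_cases i <;> simp
  · simp only [Fin.mk_one, Fin.isValue]
    rw [m1, map_add, map_smul, Finsupp.add_apply, Finsupp.smul_apply, r0, r1]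
    fin_cases i <;> simp

theorem norm_eq (hp : 1 ≤ p) {α : K} (hα : α ^ 2 - α + p = 0) : Algebra.norm ℚ α = p := by
  rw [Algebra.norm_eq_matrix_det (bas h2 hp hα), mat h2 hp hα, Matrix.det_fin_two_of]
  ring

theorem trace_eq (hp : 1 ≤ p) {α : K} (hα : α ^ 2 - α + p = 0) : Algebra.trace ℚ K α = 1 := by
  rw [Algebra.trace_eq_matrix_trace (bas h2 hp hα), mat h2 hp hα, Matrix.trace_fin_two_of]
  ring

theorem absNorm_eq (hp : 1 ≤ p) {α : 𝓞 K} (hα : α ^ 2 - α + p = 0) :
    Ideal.absNorm (Ideal.span {α}) = p := by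
  have hα' : (α : K) ^ 2 - α + p = 0 := by exact_mod_cast congrArg (algebraMap (𝓞 K) K) hα
  rw [Ideal.absNorm_span_singleton]
  have h3 : ((Algebra.norm ℤ α : ℤ) : ℚ) = p := by
    rw [Algebra.coe_norm_int, norm_eq h2 hp hα']
  have h4 : Algebra.norm ℤ α = p := by exact_mod_cast h3
  rw [h4, Int.natAbs_natCast]

/-- a bound for the discriminant -/
theorem disc_le (hp : 1 ≤ p) {α : 𝓞 K} (hα : α ^ 2 - α + p = 0) : |discr K| ≤ 4 * p - 1 := by
  have hα' : (α : K) ^ 2 - α + p = 0 := by exact_mod_cast congrArg (algebraMap (𝓞 K) K) hα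
  have hcard : Fintype.card (Free.ChooseBasisIndex ℤ (𝓞 K)) = Fintype.card (Fin 2) := by
    rw [← finrank_eq_card_chooseBasisIndex, RingOfIntegers.rank, h2, Fintype.card_fin]
  set b : Basis (Fin 2) ℤ (𝓞 K) := (RingOfIntegers.basis K).reindex (Fintype.equivOfCardEq hcard)
  set v : Fin 2 → 𝓞 K := ![1, α] with hv
  set P : Matrix (Fin 2) (Fin 2) ℤ := Matrix.of fun i j => b.repr (v i) j with hP
  have h3 : (P.map (algebraMap ℤ (𝓞 K))).mulVec b = v := by
    ext i
    simp only [Matrix.mulVec, dotProduct, Matrix.map_apply, hP, Matrix.of_apply]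
    have := b.sum_repr (v i)
    conv_rhs => rw [← this]
    simp only [map_sum, algebraMap_int_eq, eq_intCast, zsmul_eq_mul]
  have h4 := Algebra.discr_of_matrix_mulVec (A := ℤ) (b := (b : Fin 2 → 𝓞 K)) P
  rw [h3, discr_eq_discr] at h4
  have htr : ∀ x : 𝓞 K, ∀ z : ℤ, Algebra.trace ℚ K (x : K) = z → Algebra.trace ℤ (𝓞 K) x = z := by
    intro x z hx
    have h5 := Algebra.coe_trace_int (K := K) x
    rw [hx] at h5
    exact_mod_cast h5
  have t1 : Algebra.trace ℤ (𝓞 K) 1 = 2 := htr _ _ (by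
    have e : ((1 : 𝓞 K) : K) = 1 := map_one (algebraMap (𝓞 K) K)
    rw [e]
    have := Algebra.trace_algebraMap (S := K) (1 : ℚ)
    rw [map_one, h2] at this
    rw [this]
    norm_num)
  have tα : Algebra.trace ℤ (𝓞 K) α = 1 := htr _ _ (by rw [trace_eq h2 hp hα']; norm_num)
  have tα2 : Algebra.trace ℤ (𝓞 K) (α * α) = 1 - 2 * p := by
    have h5 : α * α = α - p := by linear_combination hα
    have h6 : (p : 𝓞 K) = (p : ℤ) • (1 : 𝓞 K) := by simp
    rw [h5, map_sub, tα, h6, map_smul, t1]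
    simp
    ring
  have h5 : Algebra.discr ℤ v = 1 - 4 * p := by
    rw [Algebra.discr_def, Matrix.det_fin_two]
    simp only [Algebra.traceMatrix_apply, Algebra.traceForm_apply, hv, Matrix.cons_val_zero,
      Matrix.cons_val_one, Matrix.cons_val_fin_one, one_mul, mul_one, t1, tα, tα2]
    ring
  rw [h5] at h4
  have h6 : P.det ≠ 0 := by
    intro h0
    rw [h0] at h4
    have : (1 : ℤ) ≤ p := by exact_mod_cast hp
    simp at h4
    omega
  have h7 : 1 ≤ P.det ^ 2 := by
    have := pow_pos (abs_pos.2 h6) 2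
    rw [sq_abs] at this
    omega
  have h8 : |1 - 4 * (p : ℤ)| = P.det ^ 2 * |discr K| := by
    rw [h4, abs_mul, abs_of_nonneg (sq_nonneg _)]
  have h9 : |1 - 4 * (p : ℤ)| = 4 * p - 1 := by
    have : (1 : ℤ) ≤ p := by exact_mod_cast hp
    rw [abs_of_nonpos (by omega)]
    ring
  rw [h9] at h8
  rw [h8]
  exact le_mul_of_one_le_left (abs_nonneg _) h7

end

end Pool.Agent.H517.B
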