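import Pool.Agent.H517.B.Fam1

/-!
# The fields `ℚ(√(1 - 4p))`: the class number is less than `p`
-/

set_option autoImplicit false
set_option linter.unusedSectionVars false

namespace Pool.Agent.H517.B

open NumberField Module

section

variable {K : Type} [Field K] [NumberField K]

/-- a second generator of the ring of integers -/
theorem exists_omega (h2 : finrank ℚ K = 2) : ∃ ω : 𝓞 K, ∀ x : 𝓞 K, ∃ A B : ℤ, x = A + B * ω := by
  have hcard : Fintype.card (Free.ChooseBasisIndex ℤ (𝓞 K)) = Fintype.card (Fin 2) := by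
    rw [← finrank_eq_card_chooseBasisIndex, RingOfIntegers.rank, h2, Fintype.card_fin]
  set b : Basis (Fin 2) ℤ (𝓞 K) := (RingOfIntegers.basis K).reindex (Fintype.equivOfCardEq hcard)
  set u := b.repr 1 0 with hu
  set v := b.repr 1 1 with hv
  have hb : ∀ x : 𝓞 K, x = b.repr x 0 * b 0 + b.repr x 1 * b 1 := by
    intro x
    conv_lhs => rw [← b.sum_repr x]
    rw [Fin.sum_univ_two, zsmul_eq_mul, zsmul_eq_mul]
  have h1 : (1 : 𝓞 K) = u * b 0 + v * b 1 := hb 1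
  have hg : Int.gcd u v = 1 := by
    by_contra hne
    obtain ⟨q, hq, hqd⟩ := Nat.exists_prime_and_dvd hne
    have hqu : (q : ℤ) ∣ u := (Int.natCast_dvd_natCast.2 hqd).trans (Int.gcd_dvd_left ..)
    have hqv : (q : ℤ) ∣ v := (Int.natCast_dvd_natCast.2 hqd).trans (Int.gcd_dvd_right ..)
    obtain ⟨u', hu'⟩ := hqu
    obtain ⟨v', hv'⟩ := hqv
    have h3 : (1 : 𝓞 K) = (q : 𝓞 K) * (u' * b 0 + v' * b 1) := by
      rw [h1, hu', hv']; push_cast; ring
    have h4 : IsUnit (q : 𝓞 K) := IsUnit.of_mul_eq_one _ h3.symm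
    have h5 := congrArg (fun x => b.repr x) h3
    -- use the norm
    have h6 : IsUnit (Algebra.norm ℤ (q : 𝓞 K)) := h4.map _
    have h7 : Algebra.norm ℤ (q : 𝓞 K) = (q : ℤ) ^ 2 := by
      have h8 : (q : 𝓞 K) = algebraMap ℤ (𝓞 K) q := by simp
      rw [h8, Algebra.norm_algebraMap, RingOfIntegers.rank, h2]
    rw [h7, isUnit_pow_iff two_ne_zero, Int.isUnit_iff] at h6
    have := hq.two_le
    omega
  set r : ℤ := -Int.gcdB u v
  set s : ℤ := Int.gcdA u v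
  have hus : u * s - v * r = 1 := by
    have := Int.gcd_eq_gcd_ab u v
    rw [hg] at this
    push_cast at this
    simp only [r, s]
    linarith
  refine ⟨r * b 0 + s * b 1, fun x => ?_⟩
  refine ⟨b.repr x 0 * s - b.repr x 1 * r, u * b.repr x 1 - v * b.repr x 0, ?_⟩
  have hus' : (u : 𝓞 K) * s - v * r = 1 := by exact_mod_cast congrArg (Int.cast : ℤ → 𝓞 K) hus
  have h3 := hb x
  set c0 := b.repr x 0
  set c1 := b.repr x 1
  push_cast
  calc x = c0 * b 0 + c1 * b 1 := h3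
    _ = (c0 * b 0 + c1 * b 1) * (u * s - v * r) := by rw [hus', mul_one]
    _ = (c0 * s - c1 * r) * (u * b 0 + v * b 1) + (u * c1 - v * c0) * (r * b 0 + s * b 1) := by
      ring
    _ = _ := by rw [← h1, mul_one]

/-- for a primitive ideal the integers represent all the residue classes -/
theorem prim_surj {ω : 𝓞 K} (hω : ∀ x : 𝓞 K, ∃ A B : ℤ, x = A + B * ω) {I : Ideal (𝓞 K)}
    (hI : I ≠ ⊥) (hprim : ∀ c : ℕ, 2 ≤ c → ¬ I ≤ Ideal.span {(c : 𝓞 K)}) :
    ∃ b : ℤ, ω - b ∈ I := by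
  classical
  -- a positive integer in `I`
  have hn : ∃ n : ℕ, 0 < n ∧ (n : 𝓞 K) ∈ I := by
    refine ⟨Ideal.absNorm I, ?_, Ideal.absNorm_mem I⟩
    rw [Nat.pos_iff_ne_zero, Ne, Ideal.absNorm_eq_zero_iff]
    exact hI
  set n0 := Nat.find hn with hn0
  obtain ⟨hn0p, hn0I⟩ : 0 < n0 ∧ (n0 : 𝓞 K) ∈ I := Nat.find_spec hn
  have hn0m : ∀ m : ℤ, (m : 𝓞 K) ∈ I → (n0 : ℤ) ∣ m := by
    intro m hm
    rw [Int.dvd_iff_emod_eq_zero]
    by_contra hne
    have h1 : 0 ≤ m % n0 := Int.emod_nonneg _ (by omega)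
    have h3 : m % n0 < n0 := Int.emod_lt_of_pos _ (by omega)
    have h4 : ((m % n0).toNat : 𝓞 K) ∈ I := by
      have h5 : ((m % n0).toNat : 𝓞 K) = ((m % n0 : ℤ) : 𝓞 K) := by
        conv_rhs => rw [← Int.toNat_of_nonneg h1]
        rw [Int.cast_natCast]
      rw [h5, Int.emod_def]
      push_cast
      exact I.sub_mem hm (I.mul_mem_right _ hn0I)
    exact Nat.find_min hn (m := (m % n0).toNat) (by omega) ⟨by omega, h4⟩
  -- the least coefficient of `ω`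
  have hc : ∃ c : ℕ, 0 < c ∧ ∃ b : ℤ, (b : 𝓞 K) + c * ω ∈ I := by
    refine ⟨n0, hn0p, 0, ?_⟩
    rw [Int.cast_zero, zero_add]
    exact I.mul_mem_right _ hn0I
  set c0 := Nat.find hc with hc0
  obtain ⟨hc0p, b0, hb0⟩ : 0 < c0 ∧ ∃ b : ℤ, (b : 𝓞 K) + c0 * ω ∈ I := Nat.find_spec hc
  have hc0m : ∀ A B : ℤ, (A : 𝓞 K) + B * ω ∈ I → (c0 : ℤ) ∣ B := by
    intro A B hAB
    rw [Int.dvd_iff_emod_eq_zero]
    by_contra hne
    have h1 : 0 ≤ B % c0 := Int.emod_nonneg _ (by omega)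
    have h3 : B % c0 < c0 := Int.emod_lt_of_pos _ (by omega)
    have h4 : ((A - (B / c0) * b0 : ℤ) : 𝓞 K) + ((B % c0).toNat : 𝓞 K) * ω ∈ I := by
      have h5 : ((B % c0).toNat : 𝓞 K) = ((B % c0 : ℤ) : 𝓞 K) := by
        conv_rhs => rw [← Int.toNat_of_nonneg h1]
        rw [Int.cast_natCast]
      rw [h5, Int.emod_def]
      have h6 : ((A - (B / c0) * b0 : ℤ) : 𝓞 K) + ((B - c0 * (B / c0) : ℤ) : 𝓞 K) * ω =
          (A + B * ω) - (B / c0 : ℤ) * (b0 + c0 * ω) := by push_cast; ring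
      rw [h6]
      exact I.sub_mem hAB (I.mul_mem_left _ hb0)
    exact Nat.find_min hc (m := (B % c0).toNat) (by omega) ⟨by omega, _, h4⟩
  have hcn : (c0 : ℤ) ∣ n0 := hc0m 0 n0 (by
    rw [Int.cast_zero, zero_add, Int.cast_natCast]
    exact I.mul_mem_right _ hn0I)
  have hcb : (c0 : ℤ) ∣ b0 := by
    obtain ⟨s, t, hst⟩ := hω (ω ^ 2)
    have h1 : ((c0 * s : ℤ) : 𝓞 K) + ((b0 + c0 * t : ℤ) : 𝓞 K) * ω ∈ I := by
      have h3 : ((c0 * s : ℤ) : 𝓞 K) + ((b0 + c0 * t : ℤ) : 𝓞 K) * ω =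
          (b0 + c0 * ω) * ω := by
        push_cast
        linear_combination (-(c0 : 𝓞 K)) * hst
      rw [h3]
      exact I.mul_mem_right _ hb0
    have h4 := hc0m _ _ h1
    rwa [Int.dvd_add_left (Dvd.intro _ rfl)] at h4
  have hc1 : c0 = 1 := by
    by_contra hne
    apply hprim c0 (by omega)
    intro x hx
    obtain ⟨A, B, hAB⟩ := hω x
    rw [hAB] at hx
    obtain ⟨B', hB'⟩ := hc0m A B hx
    have h1 : ((A - B' * b0 : ℤ) : 𝓞 K) ∈ I := by
      have h3 : ((A - B' * b0 : ℤ) : 𝓞 K) = (A + B * ω) - B' * (b0 + c0 * ω) := by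
        rw [hB']; push_cast; ring
      rw [h3]
      exact I.sub_mem hx (I.mul_mem_left _ hb0)
    have h3 : (c0 : ℤ) ∣ A := by
      have h4 := hcn.trans (hn0m _ h1)
      have h5 := dvd_add h4 (hcb.mul_left B')
      rwa [sub_add_cancel] at h5
    obtain ⟨A', hA'⟩ := h3
    rw [Ideal.mem_span_singleton]
    refine ⟨A' + B' * ω, ?_⟩
    rw [hAB, hA', hB']
    push_cast
    ring
  refine ⟨-b0, ?_⟩
  rw [hc1, Nat.cast_one, one_mul] at hb0
  push_cast
  rwa [sub_neg_eq_add, add_comm]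

end

end Pool.Agent.H517.B
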