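import Pool.Agent.H517.B.Fam2

/-!
# The fields `ℚ(√(1 - 4p))`: the class number is less than `p`
-/

set_option autoImplicit false
set_option linter.unusedSectionVars false

namespace Pool.Agent.H517.B

open NumberField Module
open scoped nonZeroDivisors

theorem sum_Icc (M : ℕ) : (∑ a ∈ Finset.Icc 1 M, a) * 2 = M * (M + 1) := by
  induction M with
  | zero => simp
  | succ n ih =>
    rw [Finset.sum_Icc_succ_top (by omega), add_mul, ih]
    ring

theorem sum_lt {p : ℕ} (hp : p.Prime) {M : ℕ} (hM : 9 * M ^ 2 ≤ 16 * p - 4) :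
    ∑ a ∈ (Finset.Icc 1 M).filter (fun a => a ≠ 2 ∨ p = 2), a < p := by
  have hp2 := hp.two_le
  by_cases h2 : p = 2
  · subst h2
    have h1 : M ≤ 1 := by
      by_contra h
      have : 2 ^ 2 ≤ M ^ 2 := Nat.pow_le_pow_left (by omega) 2
      omega
    interval_cases M <;> decide
  · have h3 : ((Finset.Icc 1 M).filter (fun a => a ≠ 2 ∨ p = 2)) = (Finset.Icc 1 M).erase 2 := by
      ext a
      simp only [Finset.mem_filter, Finset.mem_erase, h2, or_false]
      tauto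
    rw [h3]
    by_cases hM2 : 2 ≤ M
    · have h4 := Finset.add_sum_erase (Finset.Icc 1 M) (fun a => a)
        (a := 2) (Finset.mem_Icc.2 ⟨by omega, hM2⟩)
      have h5 := sum_Icc M
      have h7 : (∑ x ∈ (Finset.Icc 1 M).erase 2, x) * 2 + 4 = M * (M + 1) := by
        rw [← h5, ← h4]; ring
      have h8 : (9 : ℤ) * M ^ 2 ≤ 16 * p - 4 := by
        have : 4 ≤ 16 * p := by omega
        zify [this] at hM
        exact hM
      zify at h7 ⊢
      nlinarith [sq_nonneg ((M : ℤ) - 4)]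
    · refine lt_of_le_of_lt (Finset.sum_le_sum_of_subset (Finset.erase_subset _ _)) ?_
      have : M ≤ 1 := by omega
      interval_cases M
      · simp; omega
      · simp; omega

section

variable {K : Type} [Field K] [NumberField K] {p : ℕ}

theorem no_real (hp : 1 ≤ p) {α : 𝓞 K} (hα : α ^ 2 - α + p = 0) : IsEmpty (K →+* ℝ) := by
  refine ⟨fun φ => ?_⟩
  have h1 : (φ (α : K)) ^ 2 - φ (α : K) + p = 0 := by
    have := congrArg (fun x : 𝓞 K => φ (x : K)) hα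
    simpa using this
  have h3 : (1 : ℝ) ≤ p := by exact_mod_cast hp
  nlinarith [sq_nonneg (2 * φ (α : K) - 1)]

theorem complex_places (h2 : finrank ℚ K = 2) (hK : IsEmpty (K →+* ℝ)) :
    InfinitePlace.nrComplexPlaces K = 1 := by
  have h1 := InfinitePlace.card_add_two_mul_card_eq_rank K
  rw [h2] at h1
  have h3 : InfinitePlace.nrRealPlaces K = 0 := by
    classical
    have h4 : IsEmpty {w : InfinitePlace K // w.IsReal} :=
      ⟨fun w => hK.false (InfinitePlace.embedding_of_isReal w.2)⟩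
    rw [InfinitePlace.nrRealPlaces, Fintype.card_eq_zero_iff]
    exact h4
  omega

theorem exists_small (h2 : finrank ℚ K = 2) (hp : 1 ≤ p) {α : 𝓞 K} (hα : α ^ 2 - α + p = 0)
    (C : ClassGroup (𝓞 K)) : ∃ I : (Ideal (𝓞 K))⁰, ClassGroup.mk0 I = C ∧
      9 * (Ideal.absNorm (I : Ideal (𝓞 K))) ^ 2 ≤ 16 * p - 4 := by
  obtain ⟨I, hI, hn⟩ := exists_ideal_in_class_of_norm_le C
  refine ⟨I, hI, ?_⟩
  rw [complex_places h2 (no_real hp hα), h2] at hn
  have hd := disc_le h2 hp hα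
  have hd' : |(discr K : ℝ)| ≤ 4 * p - 1 := by
    have : ((|discr K| : ℤ) : ℝ) ≤ ((4 * p - 1 : ℤ) : ℝ) := by exact_mod_cast hd
    push_cast at this
    exact this
  set a : ℝ := (Ideal.absNorm (I : Ideal (𝓞 K)) : ℝ)
  have hpi := Real.pi_gt_three
  have hs : Real.sqrt |(discr K : ℝ)| ^ 2 ≤ 4 * p - 1 := by
    rw [Real.sq_sqrt (abs_nonneg _)]
    exact hd'
  have hs0 := Real.sqrt_nonneg |(discr K : ℝ)|
  have h3 : a * Real.pi ≤ 2 * Real.sqrt |(discr K : ℝ)| := by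
    have h4 : (4 / Real.pi) ^ 1 * (((Nat.factorial 2 : ℕ) : ℝ) / ((2 : ℕ) : ℝ) ^ 2 *
      Real.sqrt |(discr K : ℝ)|) * Real.pi = 2 * Real.sqrt |(discr K : ℝ)| := by
      have : Real.pi ≠ 0 := by positivity
      norm_num [Nat.factorial]
      field_simp
      ring
    rw [← h4]
    refine mul_le_mul_of_nonneg_right ?_ (by positivity)
    convert hn using 2
  have ha0 : 0 ≤ a := Nat.cast_nonneg _
  have h5 : (3 * a) ^ 2 ≤ 4 * (4 * p - 1) := by
    have h6 : 3 * a ≤ 2 * Real.sqrt |(discr K : ℝ)| := by nlinarith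
    have h7 : (3 * a) ^ 2 ≤ (2 * Real.sqrt |(discr K : ℝ)|) ^ 2 :=
      pow_le_pow_left₀ (by positivity) h6 2
    nlinarith
  have h8 : (9 * (Ideal.absNorm (I : Ideal (𝓞 K)) : ℝ) ^ 2) + 4 ≤ 16 * p := by
    have : a = (Ideal.absNorm (I : Ideal (𝓞 K)) : ℝ) := rfl
    rw [← this]
    nlinarith
  have h9 : 9 * (Ideal.absNorm (I : Ideal (𝓞 K))) ^ 2 + 4 ≤ 16 * p := by exact_mod_cast h8
  omega

/-- **The class number is less than `p`.** -/
theorem class_lt (h2 : finrank ℚ K = 2) (hp : p.Prime) {α : 𝓞 K} (hα : α ^ 2 - α + p = 0) :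
    Fintype.card (ClassGroup (𝓞 K)) < p := by
  classical
  obtain ⟨ω, hω⟩ := exists_omega (K := K) h2
  have hp1 : 1 ≤ p := hp.one_le
  set M : ℕ := Nat.sqrt ((16 * p - 4) / 9) with hMdef
  have hM : 9 * M ^ 2 ≤ 16 * p - 4 := by
    have h1 := Nat.sqrt_le' ((16 * p - 4) / 9)
    rw [← hMdef] at h1
    omega
  have hMle : ∀ a : ℕ, 9 * a ^ 2 ≤ 16 * p - 4 → a ≤ M := by
    intro a ha
    rw [hMdef, Nat.le_sqrt']
    omega
  -- the ideal of least norm in a class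
  have hex : ∀ C : ClassGroup (𝓞 K), ∃ n : ℕ, ∃ I : (Ideal (𝓞 K))⁰, ClassGroup.mk0 I = C ∧
      Ideal.absNorm (I : Ideal (𝓞 K)) = n := fun C => by
    obtain ⟨I, hI⟩ := ClassGroup.mk0_surjective C
    exact ⟨_, I, hI, rfl⟩
  choose I hI hIn using fun C => Nat.find_spec (hex C)
  have hmin : ∀ (C : ClassGroup (𝓞 K)) (J : (Ideal (𝓞 K))⁰), ClassGroup.mk0 J = C →
      Ideal.absNorm (I C : Ideal (𝓞 K)) ≤ Ideal.absNorm (J : Ideal (𝓞 K)) := by
    intro C J hJ
    rw [hIn]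
    exact Nat.find_min' (hex C) ⟨J, hJ, rfl⟩
  have hI0 : ∀ C, (I C : Ideal (𝓞 K)) ≠ ⊥ := fun C => nonZeroDivisors.coe_ne_zero (I C)
  have hpos : ∀ C, 0 < Ideal.absNorm (I C : Ideal (𝓞 K)) := by
    intro C
    rw [Nat.pos_iff_ne_zero, Ne, Ideal.absNorm_eq_zero_iff]
    exact hI0 C
  have hprim : ∀ (C : ClassGroup (𝓞 K)) (c : ℕ), 2 ≤ c →
      ¬ (I C : Ideal (𝓞 K)) ≤ Ideal.span {(c : 𝓞 K)} := by
    intro C c hc hle
    obtain ⟨J, hJ⟩ := Ideal.dvd_iff_le.2 hle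
    have hJ0 : J ≠ ⊥ := by
      rintro rfl
      apply hI0 C
      rw [hJ, Ideal.mul_bot]
    have hc0 : (c : 𝓞 K) ≠ 0 := by
      have : c ≠ 0 := by omega
      exact_mod_cast this
    have h1 : ClassGroup.mk0 (⟨J, mem_nonZeroDivisors_iff_ne_zero.2 hJ0⟩ : (Ideal (𝓞 K))⁰) = C := by
      rw [← hI C]
      refine (ClassGroup.mk0_eq_mk0_iff).2 ⟨c, 1, hc0, one_ne_zero, ?_⟩
      rw [Ideal.span_singleton_one, Ideal.top_mul]
      exact hJ.symm
    have h3 := hmin C _ h1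
    have h4 : Ideal.absNorm (I C : Ideal (𝓞 K)) = c ^ 2 * Ideal.absNorm J := by
      rw [hJ, map_mul, Ideal.absNorm_span_natCast, RingOfIntegers.rank, h2]
    have h5 : 0 < Ideal.absNorm J := by
      rw [Nat.pos_iff_ne_zero, Ne, Ideal.absNorm_eq_zero_iff]
      exact hJ0
    have h6 : Ideal.absNorm (I C : Ideal (𝓞 K)) ≤ Ideal.absNorm J := h3
    rw [h4] at h6
    have h7 : 2 ^ 2 ≤ c ^ 2 := Nat.pow_le_pow_left hc 2
    have h8 : 2 ^ 2 * Ideal.absNorm J ≤ c ^ 2 * Ideal.absNorm J := Nat.mul_le_mul_right _ h7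
    omega
  have hsurj := fun C => prim_surj hω (hI0 C) (hprim C)
  choose b hb using hsurj
  -- the integers in the ideal
  have hint : ∀ (C : ClassGroup (𝓞 K)) (m : ℤ), (m : 𝓞 K) ∈ (I C : Ideal (𝓞 K)) ↔
      (Ideal.absNorm (I C : Ideal (𝓞 K)) : ℤ) ∣ m := by
    intro C m
    have h1 : ∀ x : 𝓞 K ⧸ (I C : Ideal (𝓞 K)), x ∈ AddSubgroup.zmultiples (1 : 𝓞 K ⧸ (I C : Ideal (𝓞 K))) := by
      intro x
      obtain ⟨y, rfl⟩ := Ideal.Quotient.mk_surjective x
      obtain ⟨A, B, hAB⟩ := hω y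
      rw [AddSubgroup.mem_zmultiples_iff]
      refine ⟨A + B * b C, ?_⟩
      have h3 : Ideal.Quotient.mk (I C : Ideal (𝓞 K)) y =
          Ideal.Quotient.mk (I C : Ideal (𝓞 K)) ((A + B * b C : ℤ) : 𝓞 K) := by
        rw [Ideal.Quotient.eq, hAB]
        have h4 : (A : 𝓞 K) + B * ω - ((A + B * b C : ℤ) : 𝓞 K) = B * (ω - b C) := by
          push_cast; ring
        rw [h4]
        exact Ideal.mul_mem_left _ _ (hb C)
      rw [h3, map_intCast, zsmul_eq_mul, mul_one]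
    have h3 : addOrderOf (1 : 𝓞 K ⧸ (I C : Ideal (𝓞 K))) = Ideal.absNorm (I C : Ideal (𝓞 K)) := by
      rw [addOrderOf_eq_card_of_forall_mem_zmultiples h1, Ideal.absNorm_apply]
      rfl
    rw [← h3, addOrderOf_dvd_iff_zsmul_eq_zero, zsmul_eq_mul, mul_one,
      ← Ideal.Quotient.eq_zero_iff_mem, map_intCast]
  have hmem : ∀ (C : ClassGroup (𝓞 K)) (A B : ℤ), (A : 𝓞 K) + B * ω ∈ (I C : Ideal (𝓞 K)) ↔
      (Ideal.absNorm (I C : Ideal (𝓞 K)) : ℤ) ∣ A + B * b C := by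
    intro C A B
    rw [← hint]
    have h4 : (A : 𝓞 K) + B * ω = ((A + B * b C : ℤ) : 𝓞 K) + B * (ω - b C) := by
      push_cast; ring
    rw [h4]
    exact (Ideal.add_mem_iff_left _ (Ideal.mul_mem_left _ _ (hb C)))
  -- the bound
  have hle : ∀ C, Ideal.absNorm (I C : Ideal (𝓞 K)) ≤ M := by
    intro C
    obtain ⟨J, hJ, hJn⟩ := exists_small h2 hp1 hα C
    refine (hmin C J hJ).trans (hMle _ hJn)
  have hne : ∀ C, Ideal.absNorm (I C : Ideal (𝓞 K)) ≠ 2 ∨ p = 2 := by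
    intro C
    by_contra hcon
    push Not at hcon
    obtain ⟨h3, h4⟩ := hcon
    obtain ⟨A, B, hAB⟩ := hω α
    have h5 : ((A + B * b C : ℤ) : 𝓞 K) - α ∈ (I C : Ideal (𝓞 K)) := by
      have h6 : ((A + B * b C : ℤ) : 𝓞 K) - α = -(B * (ω - b C)) := by
        rw [hAB]; push_cast; ring
      rw [h6]
      exact neg_mem (Ideal.mul_mem_left _ _ (hb C))
    set c : ℤ := A + B * b C
    have h6 : ((c ^ 2 - c + p : ℤ) : 𝓞 K) ∈ (I C : Ideal (𝓞 K)) := by
      have h7 : ((c ^ 2 - c + p : ℤ) : 𝓞 K) = (c - α) * (c + α - 1) := by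
        push_cast
        linear_combination hα
      rw [h7]
      exact Ideal.mul_mem_right _ _ h5
    rw [hint, h3] at h6
    have h7 : (2 : ℤ) ∣ c ^ 2 - c := by
      have : c ^ 2 - c = c * (c - 1) := by ring
      rw [this]
      exact (Int.even_mul_pred_self c).two_dvd
    have h8 : (2 : ℤ) ∣ p := by
      have := (dvd_sub h6 h7)
      push_cast at this
      rwa [add_sub_cancel_left] at this
    have h9 : 2 ∣ p := by exact_mod_cast h8
    exact h4 ((Nat.prime_dvd_prime_iff_eq Nat.prime_two hp).1 h9).symm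
  -- the injection
  set T := ((Finset.Icc 1 M).filter (fun a => a ≠ 2 ∨ p = 2)).sigma (fun a => Finset.range a)
    with hT
  have hTcard : T.card < p := by
    rw [hT, Finset.card_sigma]
    simp only [Finset.card_range]
    exact sum_lt hp hM
  refine lt_of_le_of_lt ?_ hTcard
  rw [← Finset.card_univ]
  refine Finset.card_le_card_of_injOn (fun C => (⟨Ideal.absNorm (I C : Ideal (𝓞 K)),
    (b C % Ideal.absNorm (I C : Ideal (𝓞 K))).toNat⟩ : Σ _ : ℕ, ℕ)) ?_ ?_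
  · intro C _
    rw [Finset.mem_coe, hT, Finset.mem_sigma, Finset.mem_filter, Finset.mem_Icc, Finset.mem_range]
    refine ⟨⟨⟨hpos C, hle C⟩, hne C⟩, ?_⟩
    have h3 := Int.emod_lt_of_pos (b C) (by exact_mod_cast hpos C :
      (0 : ℤ) < Ideal.absNorm (I C : Ideal (𝓞 K)))
    have h4 := Int.emod_nonneg (b C) (by exact_mod_cast (hpos C).ne' :
      (Ideal.absNorm (I C : Ideal (𝓞 K)) : ℤ) ≠ 0)
    simp only
    omega
  · intro C _ C' _ h
    simp only [Sigma.mk.injEq, heq_eq_eq] at h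
    obtain ⟨h3, h4⟩ := h
    have e1 := Int.emod_nonneg (b C) (by exact_mod_cast (hpos C).ne' :
      (Ideal.absNorm (I C : Ideal (𝓞 K)) : ℤ) ≠ 0)
    have e2 := Int.emod_nonneg (b C') (by exact_mod_cast (hpos C').ne' :
      (Ideal.absNorm (I C' : Ideal (𝓞 K)) : ℤ) ≠ 0)
    have h5 : (Ideal.absNorm (I C : Ideal (𝓞 K)) : ℤ) ∣ b C - b C' := by
      rw [h3] at h4 e1 ⊢
      rw [Int.dvd_iff_emod_eq_zero, Int.sub_emod]
      have : b C % (Ideal.absNorm (I C' : Ideal (𝓞 K)) : ℤ) =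
        b C' % (Ideal.absNorm (I C' : Ideal (𝓞 K)) : ℤ) := by omega
      rw [this, sub_self, Int.zero_emod]
    have h6 : (I C : Ideal (𝓞 K)) = (I C' : Ideal (𝓞 K)) := by
      ext x
      obtain ⟨A, B, rfl⟩ := hω x
      rw [hmem, hmem, ← h3]
      have h7 : A + B * b C = (A + B * b C') + B * (b C - b C') := by ring
      rw [h7]
      exact (Int.dvd_add_left (h5.mul_left B))
    rw [← hI C, ← hI C', Subtype.ext h6]

end

end Pool.Agent.H517.B
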