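import Pool.Agent.H517.B.Fam3
import Pool.Agent.H517.B.Deg

/-!
# The fields `ℚ(√(1 - 4p))` satisfy the conditions
-/

set_option autoImplicit false
set_option linter.unusedSectionVars false

namespace Pool.Agent.H517.B

open NumberField Module IsDedekindDomain
open scoped nonZeroDivisors

variable {K : Type} [Field K] [NumberField K] {p : ℕ} [hp : Fact p.Prime]

theorem class_cond (h : Fintype.card (ClassGroup (𝓞 K)) < p) (w : HeightOneSpectrum (𝓞 K))
    (C : ClassGroup (𝓞 K)) : ∃ m k : ℕ, ¬ p ∣ m ∧ C ^ m = cl w ^ k := by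
  refine ⟨Fintype.card (ClassGroup (𝓞 K)), 0, fun hd => ?_, ?_⟩
  · have := Nat.le_of_dvd Fintype.card_pos hd
    omega
  · rw [pow_zero, pow_card_eq_one]

/-- the prime generated by a root -/
theorem exists_pl (h2 : finrank ℚ K = 2) {α : 𝓞 K} (hα : α ^ 2 - α + p = 0) :
    ∃ w : HeightOneSpectrum (𝓞 K), w.asIdeal = Ideal.span {α} := by
  have h1 := absNorm_eq h2 hp.out.one_le hα
  have hα0 : Ideal.span {α} ≠ ⊥ := by
    intro h
    rw [h, Ideal.absNorm_bot] at h1
    exact hp.out.ne_zero h1.symm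
  refine ⟨⟨Ideal.span {α}, Ideal.isPrime_of_irreducible_absNorm ?_, hα0⟩, rfl⟩
  rw [h1]
  exact hp.out

theorem unit_cond (h2 : finrank ℚ K = 2) {α β : 𝓞 K} (hα : α ^ 2 - α + p = 0) (hαβ : α + β = 1)
    {w w' : HeightOneSpectrum (𝓞 K)} (hw : w.asIdeal = Ideal.span {α})
    (hw' : w'.asIdeal = Ideal.span {β}) (x : 𝓞 K) (hx : IsCoprime (Ideal.span {x}) w'.asIdeal) :
    ∃ (α' y : 𝓞 K) (k : ℕ), Ideal.span {α'} = w.asIdeal ^ k ∧ x * α' - y ^ p ∈ w'.asIdeal ^ 3 := by
  have hβ : β ^ 2 - β + p = 0 := by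
    have : β = 1 - α := by rw [← hαβ]; ring
    rw [this]
    linear_combination hα
  have hmul : α * β = p := by
    have : β = 1 - α := by rw [← hαβ]; ring
    rw [this]
    linear_combination -hα
  have hab : w.asIdeal ^ 1 * w'.asIdeal = Ideal.span {(p : 𝓞 K)} := by
    rw [pow_one, hw, hw', Ideal.span_singleton_mul_span_singleton, hmul]
  have hcop : IsCoprime w.asIdeal w'.asIdeal := by
    rw [hw, hw', Ideal.isCoprime_span_singleton_iff]
    exact ⟨1, 1, by rw [one_mul, one_mul, hαβ]⟩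
  have hn : Ideal.absNorm w'.asIdeal = p := by rw [hw']; exact absNorm_eq h2 hp.out.one_le hβ
  have hβw : β ∈ w'.asIdeal := by rw [hw']; exact Ideal.mem_span_singleton_self _
  by_cases hp2 : p = 2
  · -- the prime `2`
    subst hp2
    obtain ⟨n0, h0⟩ := exists_int hn x
    have hx0 : x ∉ w'.asIdeal := by
      intro h
      have h1 := Ideal.isCoprime_iff_sup_eq.1 hx
      rw [sup_eq_right.2 ((Ideal.span_singleton_le_iff_mem _).2 h)] at h1
      exact w'.isPrime.ne_top h1
    -- approximation by an integer modulo the cube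
    have hint : ∃ n : ℤ, x - n ∈ w'.asIdeal ^ 3 := by
      rw [hw', Ideal.mem_span_singleton] at h0
      obtain ⟨x1, hx1⟩ := h0
      obtain ⟨n1, h1⟩ := exists_int hn x1
      rw [hw', Ideal.mem_span_singleton] at h1
      obtain ⟨x2, hx2⟩ := h1
      obtain ⟨n2, h3⟩ := exists_int hn x2
      rw [hw', Ideal.mem_span_singleton] at h3
      obtain ⟨x3, hx3⟩ := h3
      refine ⟨n0 + 6 * n1 + 36 * n2, ?_⟩
      rw [hw', Ideal.span_singleton_pow, Ideal.mem_span_singleton]
      push_cast at hβ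
      refine ⟨(2 - β) * n1 + (2 - β) * (β + 6) * n2 + x3, ?_⟩
      push_cast
      linear_combination hx1 + β * hx2 + β ^ 2 * hx3 + (β ^ 2 - β - 3) * n1 * hβ +
        (β ^ 2 - β - 3) * (β + 6) * n2 * hβ
    obtain ⟨n, hn'⟩ := hint
    push_cast at hβ hmul
    have h2w : (2 : 𝓞 K) ∈ w'.asIdeal := by
      rw [← hmul]
      exact Ideal.mul_mem_left _ _ hβw
    have h8 : (8 : 𝓞 K) ∈ w'.asIdeal ^ 3 := by
      have : (8 : 𝓞 K) = 2 ^ 3 := by norm_num
      rw [this]
      exact Ideal.pow_mem_pow h2w 3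
    have hodd : n % 2 = 1 := by
      by_contra hne
      have h3 : n % 2 = 0 := by omega
      obtain ⟨m, hm⟩ := Int.dvd_of_emod_eq_zero h3
      apply hx0
      have h4 : x = (x - n) + 2 * m := by rw [hm]; push_cast; ring
      rw [h4]
      exact Ideal.add_mem _ (Ideal.pow_le_self (by omega) hn') (Ideal.mul_mem_right _ _ h2w)
    have hα3 : α - 3 ∈ w'.asIdeal ^ 3 := by
      rw [hw', Ideal.span_singleton_pow, Ideal.mem_span_singleton]
      refine ⟨1, ?_⟩
      linear_combination hαβ - (1 + β) * hβ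
    have key : ∀ (a : ℤ) (α' : 𝓞 K), α' - a ∈ w'.asIdeal ^ 3 → (8 : ℤ) ∣ n * a - 1 →
        x * α' - 1 ^ 2 ∈ w'.asIdeal ^ 3 := by
      rintro a α' ha ⟨m, hm⟩
      have hm' : (n : 𝓞 K) * a - 1 = 8 * m := by exact_mod_cast congrArg (Int.cast : ℤ → 𝓞 K) hm
      have h4 : x * α' - 1 ^ 2 = (x - n) * α' + n * (α' - a) + 8 * m := by
        rw [← hm']; ring
      rw [h4]
      exact Ideal.add_mem _ (Ideal.add_mem _ (Ideal.mul_mem_right _ _ hn')
        (Ideal.mul_mem_left _ _ ha)) (Ideal.mul_mem_right _ _ h8)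
    have hcase : n % 8 = 1 ∨ n % 8 = 3 ∨ n % 8 = 5 ∨ n % 8 = 7 := by omega
    rcases hcase with h | h | h | h
    · exact ⟨1, 1, 0, by rw [Ideal.span_singleton_one, pow_zero, Ideal.one_eq_top],
        key 1 1 (by simp) (by omega)⟩
    · exact ⟨α, 1, 1, by rw [pow_one, hw], key 3 α (by simpa using hα3) (by omega)⟩
    · refine ⟨-α, 1, 1, by rw [pow_one, hw, Ideal.span_singleton_neg], key (-3) (-α) ?_ (by omega)⟩
      have : -α - ((-3 : ℤ) : 𝓞 K) = -(α - 3) := by push_cast; ring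
      rw [this]
      exact neg_mem hα3
    · exact ⟨-1, 1, 0, by rw [Ideal.span_singleton_neg, Ideal.span_singleton_one, pow_zero,
        Ideal.one_eq_top], key (-1) (-1) (by simp) (by omega)⟩
  · refine units_of_deg hp2 hab hcop hn (α := α) (k := 1) (by rw [pow_one, hw]) ?_ x hx
    intro h
    obtain ⟨q, hq⟩ : ∃ q, p = q + 1 := ⟨p - 1, by have := hp.out.pos; omega⟩
    have e1 := one_add_pow_mod (I := w'.asIdeal) (a := -β) (neg_mem hβw) (p - 1)
    have e2 : α = 1 + -β := by rw [← hαβ]; ring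
    rw [← e2] at e1
    have e3 : β ∈ w'.asIdeal ^ 2 := by
      have e4 : β = (α ^ (p - 1) - 1) - (α ^ (p - 1) - (1 + ((p - 1 : ℕ) : 𝓞 K) * -β)) +
          p * β := by
        rw [hq]
        simp only [Nat.add_sub_cancel]
        push_cast
        ring
      rw [e4]
      refine Ideal.add_mem _ (Ideal.sub_mem _ h e1) ?_
      rw [← hmul, mul_assoc, pow_two]
      exact Ideal.mul_mem_left _ _ (Ideal.mul_mem_mul hβw hβw)
    rw [hw', Ideal.span_singleton_pow, Ideal.mem_span_singleton] at e3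
    obtain ⟨r, hr⟩ := e3
    have hβ0 : β ≠ 0 := by
      rintro rfl
      rw [mul_zero] at hmul
      exact hp.out.ne_zero (by exact_mod_cast hmul.symm)
    have hu : β * r = 1 := by
      apply mul_left_cancel₀ hβ0
      rw [mul_one]
      conv_rhs => rw [hr]
      ring
    apply w'.isPrime.ne_top
    rw [hw', Ideal.span_singleton_eq_top]
    exact IsUnit.of_mul_eq_one _ hu

end Pool.Agent.H517.B
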