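import Mathlib

/-!
# Lifting of `p`-th powers
-/

set_option autoImplicit false

namespace Pool.Agent.H517.B

variable {R : Type} [CommRing R] {p : ℕ} [hp : Fact p.Prime]

theorem one_add_pow (u : R) : ∃ r : R, (1 + u) ^ p = 1 + p * u + p * u ^ 2 * r + u ^ p := by
  obtain ⟨q, rfl⟩ : ∃ q, p = q + 2 := ⟨p - 2, by have := hp.out.two_le; omega⟩
  have h0 : (1 + u) ^ (q + 2) = ∑ x ∈ Finset.range q, u ^ (x + 2) * ((q + 2).choose (x + 2) : R) +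
      u ^ (q + 2) + (q + 2) * u + 1 := by
    rw [add_comm 1 u, add_pow, Finset.sum_range_succ', Finset.sum_range_succ', Finset.sum_range_succ]
    simp [Nat.choose_self, mul_comm]
  have h1 : ((q + 2 : ℕ) : R) * u ^ 2 ∣ ∑ x ∈ Finset.range q, u ^ (x + 2) *
      ((q + 2).choose (x + 2) : R) := by
    refine Finset.dvd_sum fun x hx => ?_
    have h2 : (q + 2) ∣ (q + 2).choose (x + 2) := by
      refine hp.out.dvd_choose_self (by omega) ?_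
      have := Finset.mem_range.1 hx
      omega
    obtain ⟨c, hc⟩ := h2
    refine ⟨u ^ x * c, ?_⟩
    rw [hc, Nat.cast_mul, pow_add]
    ring
  obtain ⟨r, hr⟩ := h1
  refine ⟨r, ?_⟩
  rw [h0, hr]
  push_cast
  ring
/-- Lifting of `p`-th powers, `p` odd. -/
theorem lift_pow (hp2 : p ≠ 2) {𝔞 𝔟 : Ideal R} (hab : 𝔞 * 𝔟 = Ideal.span {(p : R)})
    (hcop : IsCoprime 𝔞 𝔟) {x : R} (hx : IsCoprime (Ideal.span {x}) 𝔟) {y : R}
    (hxy : x - y ^ p ∈ 𝔟 ^ 2) (n : ℕ) : ∃ y' : R, x - y' ^ p ∈ 𝔟 ^ (n + 2) := by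
  induction n with
  | zero => exact ⟨y, hxy⟩
  | succ n ih =>
    obtain ⟨y', hy'⟩ := ih
    -- an inverse of `y' ^ p` modulo `𝔟`
    obtain ⟨z, hz⟩ : ∃ z : R, y' ^ p * z - 1 ∈ 𝔟 := by
      obtain ⟨a, ha, b, hb, hab1⟩ := Ideal.isCoprime_iff_exists.1 hx
      obtain ⟨c, rfl⟩ := Ideal.mem_span_singleton'.1 ha
      refine ⟨c, ?_⟩
      have h1 : x - y' ^ p ∈ 𝔟 := Ideal.pow_le_self (by omega) hy'
      have h2 : y' ^ p * c - 1 = -(x - y' ^ p) * c - b := by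
        have h3 : (1 : R) = c * x + b := hab1.symm
        rw [h3]; ring
      rw [h2]
      exact 𝔟.sub_mem (𝔟.mul_mem_right _ (𝔟.neg_mem h1)) hb
    have h1 : 𝔟 ^ (n + 2) ≤ Ideal.span {(p : R) ^ (n + 2)} ⊔ 𝔟 ^ (n + 3) := by
      have h2 : IsCoprime (𝔞 ^ (n + 2)) 𝔟 := hcop.pow_left
      have h3 : 𝔟 ^ (n + 2) = 𝔟 ^ (n + 2) * (𝔞 ^ (n + 2) ⊔ 𝔟) := by
        rw [Ideal.isCoprime_iff_sup_eq.1 h2, Ideal.mul_top]
      rw [h3, Ideal.mul_sup, ← pow_succ]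
      refine sup_le_sup (le_of_eq ?_) le_rfl
      rw [mul_comm, ← mul_pow, hab, Ideal.span_singleton_pow]
    obtain ⟨a, ha, r, hr, har⟩ := Submodule.mem_sup.1 (h1 hy')
    obtain ⟨s, hs⟩ := Ideal.mem_span_singleton.1 ha
    obtain ⟨u, hu⟩ : ∃ u : R, u = (p : R) ^ (n + 1) * (s * z) := ⟨_, rfl⟩
    obtain ⟨k, hk⟩ := one_add_pow (p := p) u
    refine ⟨y' * (1 + u), ?_⟩
    have hpb : (p : R) ∈ 𝔟 := by
      have h2 : (p : R) ∈ 𝔞 * 𝔟 := by rw [hab]; exact Ideal.mem_span_singleton_self _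
      exact Ideal.mul_le_right h2
    have hpn : ∀ m, (p : R) ^ m ∈ 𝔟 ^ m := fun m => Ideal.pow_mem_pow hpb m
    obtain ⟨Y, hY⟩ : ∃ Y : R, Y = y' ^ p := ⟨_, rfl⟩
    rw [mul_pow, hk, ← hY]
    rw [← hY] at hz hy' har
    have e1 : x - Y * (1 + p * u + p * u ^ 2 * k + u ^ p) = r - (p : R) ^ (n + 2) * s * (Y * z - 1)
        - (p : R) * u ^ 2 * (k * Y) - u ^ p * Y := by
      have h4 : x = Y + (a + r) := by rw [har]; ring
      have h5 : (p : R) * u = (p : R) ^ (n + 2) * (s * z) := by rw [hu]; ring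
      have h6 : x - Y * (1 + p * u + p * u ^ 2 * k + u ^ p) = x - Y - Y * (p * u) - 
         (p : R) * u ^ 2 * (k * Y) - u ^ p * Y := by ring
      rw [h6, h5, h4, hs]
      ring
    rw [e1]
    refine Ideal.sub_mem _ (Ideal.sub_mem _ (Ideal.sub_mem _ ?_ ?_) ?_) ?_
    · exact hr
    · rw [mul_assoc]
      have h5 : 𝔟 ^ (n + 1 + 2) = 𝔟 ^ (n + 2) * 𝔟 := by rw [← pow_succ]
      rw [h5]
      exact Ideal.mul_mem_mul (hpn _) (𝔟.mul_mem_left _ hz)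
    · refine Ideal.mul_mem_right _ _ ?_
      have h5 : (p : R) * u ^ 2 = (p : R) ^ (n + 1 + 2) * ((p : R) ^ n * (s * z) ^ 2) := by
        rw [hu]; ring
      rw [h5]
      exact Ideal.mul_mem_right _ _ (hpn _)
    · refine Ideal.mul_mem_right _ _ ?_
      have h6 : 3 ≤ p := by
        have := hp.out.two_le
        omega
      have h7 : n + 1 + 2 ≤ (n + 1) * p := by nlinarith
      have h5 : u ^ p = (p : R) ^ (n + 1 + 2) * ((p : R) ^ ((n + 1) * p - (n + 1 + 2)) *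
          (s * z) ^ p) := by
        rw [hu, mul_pow, ← pow_mul, ← mul_assoc, ← pow_add, Nat.add_sub_cancel' h7]
      rw [h5]
      exact Ideal.mul_mem_right _ _ (hpn _)

/-- Lifting of squares. -/
theorem lift_two {𝔞 𝔟 : Ideal R} (hab : 𝔞 * 𝔟 = Ideal.span {(2 : R)})
    (hcop : IsCoprime 𝔞 𝔟) {x : R} (hx : IsCoprime (Ideal.span {x}) 𝔟) {y : R}
    (hxy : x - y ^ 2 ∈ 𝔟 ^ 3) (n : ℕ) : ∃ y' : R, x - y' ^ 2 ∈ 𝔟 ^ (n + 3) := by
  induction n with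
  | zero => exact ⟨y, hxy⟩
  | succ n ih =>
    obtain ⟨y', hy'⟩ := ih
    -- an inverse of `y'` modulo `𝔟`
    obtain ⟨z, hz⟩ : ∃ z : R, y' * z - 1 ∈ 𝔟 := by
      obtain ⟨a, ha, b, hb, hab1⟩ := Ideal.isCoprime_iff_exists.1 hx
      obtain ⟨c, rfl⟩ := Ideal.mem_span_singleton'.1 ha
      refine ⟨y' * c, ?_⟩
      have h1 : x - y' ^ 2 ∈ 𝔟 := Ideal.pow_le_self (by omega) hy'
      have h2 : y' * (y' * c) - 1 = -(x - y' ^ 2) * c - b := by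
        have h3 : (1 : R) = c * x + b := hab1.symm
        rw [h3]; ring
      rw [h2]
      exact 𝔟.sub_mem (𝔟.mul_mem_right _ (𝔟.neg_mem h1)) hb
    have h1 : 𝔟 ^ (n + 3) ≤ Ideal.span {(2 : R) ^ (n + 3)} ⊔ 𝔟 ^ (n + 4) := by
      have h2 : IsCoprime (𝔞 ^ (n + 3)) 𝔟 := hcop.pow_left
      have h3 : 𝔟 ^ (n + 3) = 𝔟 ^ (n + 3) * (𝔞 ^ (n + 3) ⊔ 𝔟) := by
        rw [Ideal.isCoprime_iff_sup_eq.1 h2, Ideal.mul_top]
      rw [h3, Ideal.mul_sup, ← pow_succ]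
      refine sup_le_sup (le_of_eq ?_) le_rfl
      rw [mul_comm, ← mul_pow, hab, Ideal.span_singleton_pow]
    obtain ⟨a, ha, r, hr, har⟩ := Submodule.mem_sup.1 (h1 hy')
    obtain ⟨s, hs⟩ := Ideal.mem_span_singleton.1 ha
    refine ⟨y' + 2 ^ (n + 2) * (s * z), ?_⟩
    have hpb : (2 : R) ∈ 𝔟 := by
      have h2 : (2 : R) ∈ 𝔞 * 𝔟 := by rw [hab]; exact Ideal.mem_span_singleton_self _
      exact Ideal.mul_le_right h2
    have hpn : ∀ m, (2 : R) ^ m ∈ 𝔟 ^ m := fun m => Ideal.pow_mem_pow hpb m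
    have e1 : x - (y' + 2 ^ (n + 2) * (s * z)) ^ 2 = r - (2 : R) ^ (n + 3) * (s * (y' * z - 1))
        - (2 : R) ^ (n + 4) * (2 ^ n * (s * z) ^ 2) := by
      have h4 : x = y' ^ 2 + (a + r) := by rw [har]; ring
      rw [h4, hs]
      ring
    rw [e1]
    refine Ideal.sub_mem _ (Ideal.sub_mem _ hr ?_) ?_
    · have h5 : 𝔟 ^ (n + 1 + 3) = 𝔟 ^ (n + 3) * 𝔟 := by rw [← pow_succ]
      rw [h5]
      exact Ideal.mul_mem_mul (hpn _) (𝔟.mul_mem_left _ hz)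
    · exact Ideal.mul_mem_right _ _ (hpn _)

/-- Lifting of `p`-th powers. -/
theorem lift_all {𝔞 𝔟 : Ideal R} (hab : 𝔞 * 𝔟 = Ideal.span {(p : R)})
    (hcop : IsCoprime 𝔞 𝔟) {x : R} (hx : IsCoprime (Ideal.span {x}) 𝔟) {y : R}
    (hxy : x - y ^ p ∈ 𝔟 ^ 3) (n : ℕ) : ∃ y' : R, x - y' ^ p ∈ 𝔟 ^ (n + 2) := by
  by_cases hp2 : p = 2
  · subst hp2
    obtain ⟨y', hy'⟩ := lift_two (by simpa using hab) hcop hx hxy n
    exact ⟨y', Ideal.pow_le_pow_right (by omega) hy'⟩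
  · exact lift_pow hp2 hab hcop hx (Ideal.pow_le_pow_right (by omega) hxy) n

end Pool.Agent.H517.B
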