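import Pool.Agent.H517.B.Cls
import Pool.Agent.H517.M.Tow

/-!
# Vanishing over the `p`-extensions
-/

set_option autoImplicit false
set_option linter.unusedSectionVars false

namespace Pool.Agent.H517.B

open NumberField IsDedekindDomain Pool.Agent.W401.Cheb Pool.Agent.NH7.Sch

variable {K : Type} [Field K] [NumberField K] {p : ℕ} [hp : Fact p.Prime]

/-- the union of the inertia groups of the places prime to `p` -/
def II (K : Type) [Field K] [NumberField K] (p : ℕ) : Set (GK K) :=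
  {σ | ∃ Q : Ideal (OO K), Q.IsMaximal ∧ (p : OO K) ∉ Q ∧ σ ∈ Inr Q}

theorem II_conj (g x : GK K) (hx : x ∈ II K p) : g * x * g⁻¹ ∈ II K p := by
  obtain ⟨Q, hQ, hpQ, h⟩ := hx
  exact ⟨mv g Q, mv_max g hQ, fun h1 => hpQ (natCast_mem_mv.1 h1), Inr_conj g h⟩

theorem mv_comap (g : GK K) (Q : Ideal (OO K)) :
    (mv g Q).comap (algebraMap (𝓞 K) (OO K)) = Q.comap (algebraMap (𝓞 K) (OO K)) := by
  ext x
  rw [Ideal.mem_comap, Ideal.mem_comap, mem_mv, smul_algebraMap]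

/-- **The vanishing.** -/
theorem vanish {w : HeightOneSpectrum (𝓞 K)} (hrc : RC p w)
    {H N : Subgroup (GK K)} (hNH : N ≤ H) (hNn : N.Normal) (hNi : ∃ a : ℕ, N.index = p ^ a)
    (hNo : IsOpen (N : Set (GK K))) (hIN : ∀ σ ∈ II K p, σ ∈ N)
    {X : Type*} [Fintype X] [DecidableEq X]
    {ρ : H →* Matrix X X ℤ_[p]} (hρ : ∀ i j, Continuous fun σ => ρ σ i j)
    (hu : ∀ σ : H, (σ : GK K) ∈ II K p → ρ σ = 1)
    (hr : ∀ σ, ∃ k, (M.m2 (ρ σ)) ^ p ^ k = 1)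
    {c : H → X → ℚ_[p]} (hc : Continuous c)
    (hcoc : ∀ σ τ, c (σ * τ) = c σ + M.av ρ σ (c τ))
    (ho : ∀ σ : H, (σ : GK K) ∈ II K p → c σ = 0)
    (h2 : ∀ Q : Ideal (OO K), Q.IsMaximal → Q.comap (algebraMap (𝓞 K) (OO K)) = w.asIdeal →
      ∃ y, ∀ σ : H, (σ : GK K) ∈ Dec Q → c σ = M.av ρ σ y - y) :
    ∃ y, ∀ σ, c σ = M.av ρ σ y - y := by
  obtain ⟨a, ha⟩ := hNi
  obtain ⟨Q, hQ, hQw⟩ := exists_Q (K := K) w
  refine M.tow (II_conj (K := K) (p := p)) (Dec Q) (fun h hlc hm hI hD => ?_) hNH hNn ha hNo hIN hρ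
    hu hr hc hcoc ho fun r => ?_
  · refine key hrc hlc.continuous hm (fun Q' hQ' hpQ' σ hσ => hI σ ⟨Q', hQ', hpQ', hσ⟩) ?_
    intro Q' hQ' hQw' σ hσ
    obtain ⟨τ, hτ⟩ := Pool.Agent.NH7.GU.s_cnj K w Q' Q hQ' hQ hQw' hQw
    have h1 : τ * σ * τ⁻¹ ∈ Dec Q := by
      rw [hτ]
      exact (Dec_mv τ σ).1 hσ
    have h3 := hD _ h1
    have h4 : h (τ * σ * τ⁻¹) = h σ := by
      have h5 : h 1 = 0 := by
        have := hm 1 1
        rw [mul_one] at this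
        exact left_eq_add.1 this
      have h6 := hm τ τ⁻¹
      rw [mul_inv_cancel, h5] at h6
      rw [hm, hm, add_right_comm, ← h6, zero_add]
    rwa [h4] at h3
  · obtain ⟨y, hy⟩ := h2 (mv r⁻¹ Q) (mv_max _ hQ) (by rw [mv_comap]; exact hQw)
    refine ⟨y, fun σ hσ => hy σ ?_⟩
    rw [Dec_mv r]
    have h3 : mv r (mv r⁻¹ Q) = Q := by
      ext x
      rw [mem_mv, mem_mv, inv_inv, smul_inv_smul]
    rwa [h3]

end Pool.Agent.H517.B
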